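import Pool.Agent.P.MP_ef347d_lc.Defs

/-! Boolean circuits and unbounded linear programs. -/

namespace Pool.Agent.P.MP_ef347d_lc

open Matrix

/-- A Boolean circuit with `N` gates: each gate is an input bit or the NAND of two gates. -/
abbrev Circ (N : ℕ) : Type := Fin N → ℕ ⊕ Fin N × Fin N

/-- The value of one gate, given the input bits `x` and the current values `w` of the gates. -/
def gate {N : ℕ} (x : ℕ → Bool) (w : Fin N → Bool) : ℕ ⊕ Fin N × Fin N → Bool
  | .inl j => x j
  | .inr p => !(w p.1 && w p.2)

/-- The values of the gates after the first `i` gates are evaluated in order (a gate that is not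
yet evaluated holds `false`). -/
def run {N : ℕ} (c : Circ N) (x : ℕ → Bool) : ℕ → Fin N → Bool
  | 0 => fun _ => false
  | i + 1 => fun g => if g.val = i then gate x (run c x i) (c g) else run c x i g

/-- The linear program `max c·x` subject to `A x ≤ b` is unbounded. -/
def Unb {m n : ℕ} (D : Idx m n → ℝ) : Prop := ∀ R : ℝ, ∃ x, Feasible D x ∧ R < dc D ⬝ᵥ x

end Pool.Agent.P.MP_ef347d_lc
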