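import Pool.Agent.P.MP_ef347d_lc.H.Game
import Pool.Agent.P.MP_ef347d_lc.Gauss

/-! An embedding of systems with a margin in linear programs that survives Gaussian noise. -/

namespace Pool.Agent.P.MP_ef347d_lc.H

open Matrix MeasureTheory ProbabilityTheory Filter

section prob

variable {I : Type} [Fintype I]

lemma tail_inj {J : Type} [Fintype J] {f : J → I} (hf : Function.Injective f) (w : J → ℝ)
    {r l : ℝ} (hw : ∑ j, w j ^ 2 ≤ r ^ 2) (hr : 0 < r) (hl : 0 ≤ l) :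
    (gam I).real {Z | l * r ≤ ∑ j, w j * Z (f j)} ≤ Real.exp (-l ^ 2 / 2) := by
  classical
  have e : ∀ Z : I → ℝ, (∑ j, Pi.single (f j) (w j) : I → ℝ) ⬝ᵥ Z = ∑ j, w j * Z (f j) :=
    fun Z => by simp [sum_dotProduct]
  have h := gam_tail (∑ j, Pi.single (f j) (w j) : I → ℝ) r l (by
    rw [e]
    simpa [Finset.sum_apply, Pi.single_apply, hf.eq_iff, sq] using hw) hr hl
  simp only [e] at h
  exact ENNReal.toReal_le_of_le_ofReal (Real.exp_pos _).le h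

lemma good_event {T J : Type} [Fintype T] [Fintype J] {f : T → J → I}
    (hf : ∀ t, Function.Injective (f t)) (w : T → J → ℝ) {r l : ℝ}
    (hw : ∀ t, ∑ j, w t j ^ 2 ≤ r ^ 2) (hr : 0 < r) (hl : 0 ≤ l)
    (hT : Fintype.card T * Real.exp (-l ^ 2 / 2) ≤ 1 / 10) :
    ∃ G : Set (I → ℝ), MeasurableSet G ∧ 9 / 10 ≤ (gam I).real G ∧
      ∀ Z ∈ G, ∀ t, ∑ j, w t j * Z (f t j) ≤ l * r := by
  have hm : MeasurableSet (⋃ t, {Z : I → ℝ | l * r ≤ ∑ j, w t j * Z (f t j)}) :=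
    MeasurableSet.iUnion fun t => measurableSet_le measurable_const (by fun_prop)
  refine ⟨_, hm.compl, ?_, fun Z hZ t => ?_⟩
  · rw [measureReal_compl hm, probReal_univ]
    have h := (measureReal_iUnion_fintype_le (μ := gam I)
      fun t => {Z : I → ℝ | l * r ≤ ∑ j, w t j * Z (f t j)}).trans
      (Finset.sum_le_card_nsmul _ _ _ fun t _ => tail_inj (hf t) (w t) (hw t) hr hl)
    rw [nsmul_eq_mul, Finset.card_univ] at h
    linarith
  · simp only [Set.mem_compl_iff, Set.mem_iUnion, Set.mem_ofPred_eq, not_exists, not_le] at hZ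
    exact (hZ t).le

end prob

variable {m n B R : ℕ}

lemma unb_of (D : Idx m n → ℝ) (x : Fin n → ℝ) (h : ∀ i, (dA D *ᵥ x) i < 0)
    (hc : 0 < dc D ⬝ᵥ x) : Unb D := fun K => by
  have h1 : ∀ᶠ t : ℝ in atTop, ∀ i, t * (dA D *ᵥ x) i ≤ db D i := eventually_all.2 fun i =>
    (tendsto_id.atTop_mul_const_of_neg (h i)).eventually (eventually_le_atBot _)
  have h2 : ∀ᶠ t : ℝ in atTop, K < t * (dc D ⬝ᵥ x) :=
    (tendsto_id.atTop_mul_const hc).eventually (eventually_gt_atTop _)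
  obtain ⟨t, a, b⟩ := (h1.and h2).exists
  exact ⟨t • x, fun i => by simpa [Matrix.mulVec_smul] using a i, by simpa using b⟩

lemma not_unb (D : Idx m n → ℝ) (C : ℝ) (h : ∀ x, Feasible D x → ‖x‖ ≤ C) : ¬ Unb D := fun u => by
  obtain ⟨x, hx, h1⟩ := u (∑ a, |dc D a| * C)
  refine h1.not_ge (Finset.sum_le_sum fun a _ => (le_abs_self _).trans ?_)
  rw [abs_mul]
  exact mul_le_mul_of_nonneg_left ((norm_le_pi_norm x a).trans (h x hx)) (abs_nonneg _)

variable {ι κ : Type} [Fintype ι] [Fintype κ] (M : ι → κ → ℝ) (c : κ → ℝ) (τ : Fin n ≃ κ × Fin B)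

/-- the rows after the columns are replaced by blocks, together with the box rows -/
noncomputable def A0 : ι ⊕ Bool × Fin n → Fin n → ℝ
  | .inl i => fun a => M i (τ a).1
  | .inr q => (2 : ℝ)⁻¹ • (Pi.single q.2 (if q.1 then 1 else -1) - fun a => c (τ a).1)

omit [Fintype ι] in
lemma blk_dot (v : κ → ℝ) (x : Fin n → ℝ) :
    (fun a => v (τ a).1) ⬝ᵥ x = v ⬝ᵥ fun j => ∑ b, x (τ.symm (j, b)) := by
  simp only [dotProduct, Finset.mul_sum]
  rw [← Fintype.sum_prod_type', ← τ.symm.sum_comp]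
  simp

omit [Fintype ι] in
lemma blk_yes {G : ℝ} (h : Yes M c G) (hG : 0 ≤ G) (hB : 2 * G ≤ B) : ∃ x : Fin n → ℝ,
    (∀ a, |x a| ≤ 1) ∧ (∀ i, 4 * G * (A0 M c τ i ⬝ᵥ x) ≤ -B) ∧
      B ≤ 4 * G * ((fun a => c (τ a).1) ⬝ᵥ x) := by
  obtain ⟨y, h1, h2, h3⟩ := h
  have e : ∀ v : κ → ℝ, (fun a => v (τ a).1) ⬝ᵥ (fun a => y (τ a).1) = B * (v ⬝ᵥ y) := fun v => by
    rw [blk_dot]
    simp only [Equiv.apply_symm_apply, Finset.sum_const, Finset.card_univ, Fintype.card_fin,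
      nsmul_eq_mul, dotProduct, Finset.mul_sum]
    exact Finset.sum_congr rfl fun j _ => by ring
  have hB0 : (0 : ℝ) ≤ B := by positivity
  refine ⟨fun a => y (τ a).1, fun a => h1 _, ?_, ?_⟩
  · rintro (i | ⟨s, a⟩)
    · rw [A0, e]
      nlinarith [h2 i]
    · have := abs_le.1 (h1 (τ a).1)
      simp only [A0, smul_dotProduct, sub_dotProduct, single_dotProduct, e, smul_eq_mul]
      split_ifs <;> nlinarith
  · rw [e]
    nlinarith

omit [Fintype ι] in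
lemma blk_no {G : ℝ} (h : No M c G) (hG : 0 ≤ G) (x : Fin n → ℝ) (ε : ℝ) (hε : 0 ≤ ε)
    (hx : ∀ i, A0 M c τ i ⬝ᵥ x ≤ ε) : ‖x‖ ≤ (G + 2) * ε := by
  have h1 := h (fun j => ∑ b, x (τ.symm (j, b))) ε hε fun i => by
    rw [← blk_dot]
    exact hx (.inl i)
  rw [← blk_dot] at h1
  refine (pi_norm_le_iff_of_nonneg (by positivity)).2 fun a => ?_
  have h2 := hx (.inr (true, a))
  have h3 := hx (.inr (false, a))
  simp only [A0, smul_dotProduct, sub_dotProduct, single_dotProduct, smul_eq_mul, if_true,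
    Bool.false_eq_true, if_false] at h2 h3
  rw [Real.norm_eq_abs, abs_le]
  constructor <;> linarith

variable {ι' : Type} [Fintype ι'] (A : ι' → Fin n → ℝ) (c1 : Fin n → ℝ) (ρ : Fin m ≃ ι' × Fin R)

/-- the centre: every row is repeated -/
def ctr : Idx m n → ℝ := Sum.elim (fun p => A (ρ p.1).1 p.2) (Sum.elim (fun _ => 0) c1)

omit [Fintype ι'] in
lemma ctr_row (σ Z : Idx m n → ℝ) (x : Fin n → ℝ) (i : Fin m) :
    (dA (ctr A c1 ρ + σ * Z) *ᵥ x) i =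
      A (ρ i).1 ⬝ᵥ x + ∑ a, x a * (σ (.inl (i, a)) * Z (.inl (i, a))) := by
  simp only [dA, ctr, mulVec, dotProduct, of_apply, Pi.add_apply, Sum.elim_inl, Pi.mul_apply,
    ← Finset.sum_add_distrib]
  exact Finset.sum_congr rfl fun a _ => by ring

omit [Fintype ι'] in
lemma ctr_obj (σ Z : Idx m n → ℝ) (x : Fin n → ℝ) :
    dc (ctr A c1 ρ + σ * Z) ⬝ᵥ x =
      c1 ⬝ᵥ x - ∑ a, -x a * (σ (.inr (.inr a)) * Z (.inr (.inr a))) := by
  simp only [dc, ctr, dotProduct, Pi.add_apply, Sum.elim_inr, Pi.mul_apply,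
    ← Finset.sum_sub_distrib]
  exact Finset.sum_congr rfl fun a _ => by ring

lemma sq_le {u v s : ℝ} (hu : |u| ≤ 1) (hv : |v| ≤ s) : (u * v) ^ 2 ≤ s ^ 2 := by
  rw [← sq_abs, abs_mul]
  exact pow_le_pow_left₀ (by positivity) ((mul_le_of_le_one_left (abs_nonneg _) hu).trans hv) 2

omit [Fintype ι'] in
lemma emb_yes {Γ β s l : ℝ} (hn : 0 < n) (x : Fin n → ℝ) (h1 : ∀ a, |x a| ≤ 1)
    (h2 : ∀ i, Γ * (A i ⬝ᵥ x) ≤ -β) (h3 : β ≤ Γ * (c1 ⬝ᵥ x)) (hΓ : 0 < Γ) (hs : 0 < s) (hl : 0 ≤ l)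
    (hβ : Γ * (s * (l * √n)) < β) (hT : (m + 1 : ℕ) * Real.exp (-l ^ 2 / 2) ≤ 1 / 10)
    {σ : Idx m n → ℝ} (hσ : ∀ a, |σ a| ≤ s) :
    ∃ G : Set (Idx m n → ℝ), MeasurableSet G ∧ 9 / 10 ≤ (gam (Idx m n)).real G ∧
      ∀ Z ∈ G, Unb (ctr A c1 ρ + σ * Z) := by
  obtain ⟨G, g1, g2, g3⟩ := good_event (I := Idx m n) (T := Option (Fin m)) (J := Fin n)
    (f := fun t a => t.elim (.inr (.inr a)) fun i => .inl (i, a))
    (by rintro (_ | i) a b h <;> simpa using h)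
    (fun t a => t.elim (-x a * σ (.inr (.inr a))) fun i => x a * σ (.inl (i, a)))
    (r := s * √n) (l := l) (fun t => by
      rw [mul_pow, Real.sq_sqrt (by positivity), mul_comm]
      refine (Finset.sum_le_card_nsmul _ _ (s ^ 2) fun a _ => ?_).trans (by simp)
      cases t
      · exact sq_le (by simpa using h1 a) (hσ _)
      · exact sq_le (h1 a) (hσ _)) (by positivity) hl (by simpa using hT)
  refine ⟨G, g1, g2, fun Z hZ => unb_of _ x (fun i => ?_) ?_⟩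
  · have := mul_le_mul_of_nonneg_left (g3 Z hZ (some i)) hΓ.le
    rw [ctr_row, ← mul_lt_mul_iff_right₀ hΓ, mul_add, mul_zero]
    simp only [Option.elim_some, mul_assoc] at this
    linarith [h2 (ρ i).1]
  · have := mul_le_mul_of_nonneg_left (g3 Z hZ none) hΓ.le
    rw [ctr_obj, ← mul_lt_mul_iff_right₀ hΓ, mul_sub, mul_zero]
    simp only [Option.elim_none, mul_assoc] at this
    linarith

lemma emb_no {Λ s l r : ℝ} (h : ∀ (x : Fin n → ℝ) (ε : ℝ), 0 ≤ ε → (∀ i, A i ⬝ᵥ x ≤ ε) →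
    ‖x‖ ≤ Λ * ε) (hs : 0 < s) (hl : 0 ≤ l) (hr : 0 < r) (hR : r ^ 2 = R)
    (h1 : 2 * (Λ * (s * (n * l))) ≤ r)
    (hT : (2 * (Fintype.card ι' * n) : ℕ) * Real.exp (-l ^ 2 / 2) ≤ 1 / 10)
    {σ : Idx m n → ℝ} (hσ : ∀ a, |σ a| ≤ s) :
    ∃ G : Set (Idx m n → ℝ), MeasurableSet G ∧ 9 / 10 ≤ (gam (Idx m n)).real G ∧
      ∀ Z ∈ G, ¬ Unb (ctr A c1 ρ + σ * Z) := by
  obtain ⟨G, g1, g2, g3⟩ := good_event (I := Idx m n) (T := Bool × ι' × Fin n) (J := Fin R)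
    (f := fun t k => .inl (ρ.symm (t.2.1, k), t.2.2)) (fun t a b h => by simpa using h)
    (fun t k => (if t.1 then 1 else -1) * σ (.inl (ρ.symm (t.2.1, k), t.2.2)))
    (r := s * r) (l := l) (fun t => by
      rw [mul_pow s, hR, mul_comm (s ^ 2)]
      refine (Finset.sum_le_card_nsmul _ _ (s ^ 2) fun a _ => sq_le ?_ (hσ _)).trans (by simp)
      split_ifs <;> simp) (by positivity) hl (by simpa using hT)
  refine ⟨G, g1, g2, fun Z hZ => ?_⟩
  generalize hD : ctr A c1 ρ + σ * Z = D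
  have hb : 0 ≤ ∑ i, |db D i| := Finset.sum_nonneg fun _ _ => abs_nonneg _
  refine not_unb D (2 * (Λ * ∑ i, |db D i|)) fun x hx => ?_
  have h2 := h x (∑ i, |db D i| + s * (n * l) * ‖x‖ / r) (by positivity) fun i => ?_
  · have h3 : Λ * (s * (n * l) * ‖x‖ / r) ≤ ‖x‖ / 2 := by
      rw [← mul_div_assoc, div_le_div_iff₀ hr two_pos]
      nlinarith [norm_nonneg x]
    linarith
  have h3 : ∑ k, (dA D *ᵥ x) (ρ.symm (i, k)) ≤ R * ∑ i, |db D i| := by
    simpa using Finset.sum_le_card_nsmul Finset.univ (fun k => (dA D *ᵥ x) (ρ.symm (i, k))) _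
      fun k _ => (hx _).trans ((le_abs_self _).trans (Finset.single_le_sum
        (f := fun i => |db D i|) (fun _ _ => abs_nonneg _) (Finset.mem_univ _)))
  have h4 : -(n * (‖x‖ * (l * (s * r)))) ≤
      ∑ k, ∑ a, x a * (σ (.inl (ρ.symm (i, k), a)) * Z (.inl (ρ.symm (i, k), a))) := by
    rw [Finset.sum_comm]
    have := Finset.card_nsmul_le_sum Finset.univ
      (fun a => ∑ k, x a * (σ (.inl (ρ.symm (i, k), a)) * Z (.inl (ρ.symm (i, k), a))))
      (-(‖x‖ * (l * (s * r)))) fun a _ => by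
        rw [← Finset.mul_sum]
        refine (neg_le_neg ?_).trans (neg_abs_le _)
        rw [abs_mul]
        refine mul_le_mul (norm_le_pi_norm x a) (abs_le.2 ⟨?_, ?_⟩) (abs_nonneg _) (norm_nonneg _)
        · simpa [neg_le] using g3 Z hZ (false, i, a)
        · simpa using g3 Z hZ (true, i, a)
    simpa using this
  simp only [← hD, ctr_row, Equiv.apply_symm_apply, Finset.sum_add_distrib,
    Finset.sum_const, Finset.card_univ, Fintype.card_fin, nsmul_eq_mul] at h3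
  rw [hD, ← hR] at h3
  rw [← mul_le_mul_iff_right₀ (pow_pos hr 2)]
  have e : r ^ 2 * (∑ i, |db D i| + s * (n * l) * ‖x‖ / r) =
      r ^ 2 * ∑ i, |db D i| + n * (‖x‖ * (l * (s * r))) := by
    field_simp
  linarith

end Pool.Agent.P.MP_ef347d_lc.H
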