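import Pool.Agent.P.MP_ef347d_lc.H.Defs

/-! A homogeneous system of inequalities with a large margin that evaluates a circuit. -/

namespace Pool.Agent.P.MP_ef347d_lc.H

open Matrix Polynomial

/-- a strictly improving direction with margin `1 / G` -/
def Yes {ι κ : Type} [Fintype κ] (M : ι → κ → ℝ) (c : κ → ℝ) (G : ℝ) : Prop :=
  ∃ y : κ → ℝ, (∀ j, |y j| ≤ 1) ∧ (∀ i, G * (M i ⬝ᵥ y) ≤ -1) ∧ 1 ≤ G * (c ⬝ᵥ y)

/-- approximate solutions have small objective -/
def No {ι κ : Type} [Fintype κ] (M : ι → κ → ℝ) (c : κ → ℝ) (G : ℝ) : Prop :=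
  ∀ (y : κ → ℝ) (ε : ℝ), 0 ≤ ε → (∀ i, M i ⬝ᵥ y ≤ ε) → c ⬝ᵥ y ≤ G * ε

section ring

variable {R : Type} [CommRing R] {N t : ℕ}

/-- a bit as a ring element -/
def bt (b : Bool) : R := if b then 1 else 0

/-- the multilinear indicator of a vertex of the cube -/
def EE (u : Fin t → Bool) (z : Fin t → R) : R := ∏ b, if u b then z b else 1 - z b

/-- the multilinear extension -/
def WT (e : Fin N → Fin t → Bool) (w : Fin N → Bool) (z : Fin t → R) : R :=
  ∑ g, bt (w g) * EE (e g) z

/-- a curve of degree two through three points -/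
def cv (h s z l r : R) : R := z * (1 - s ^ 2) + h * (l * (s ^ 2 + s) + r * (s ^ 2 - s))

lemma EE_bt (u v : Fin t → Bool) :
    EE u (fun b => (bt (v b) : R)) = if u = v then 1 else 0 := by
  unfold EE
  split_ifs with h
  · subst h
    refine Finset.prod_eq_one fun b _ => ?_
    rcases hb : u b <;> simp [bt, hb]
  · obtain ⟨b, hb⟩ := Function.ne_iff.1 h
    refine Finset.prod_eq_zero (Finset.mem_univ b) ?_
    rcases hu : u b <;> rcases hv : v b <;> simp_all [bt]

lemma WT_e {e : Fin N → Fin t → Bool} (he : Function.Injective e) (w : Fin N → Bool) (g : Fin N) :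
    WT e w (fun b => (bt (e g b) : R)) = bt (w g) := by
  simp [WT, EE_bt, he.eq_iff]

lemma run_ge (c : Circ N) (x : ℕ → Bool) : ∀ (i : ℕ) (g : Fin N), i ≤ g.val → run c x i g = false
  | 0, _, _ => rfl
  | i + 1, g, h => by
    simp only [run]
    rw [if_neg (by omega)]
    exact run_ge c x i g (by omega)

lemma WT_step (e : Fin N → Fin t → Bool) (c : Circ N) (x : ℕ → Bool) (g : Fin N) (z : Fin t → R) :
    WT e (run c x (g.val + 1)) z =
      WT e (run c x g.val) z + EE (e g) z * bt (gate x (run c x g.val) (c g)) := by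
  have h : ∀ k : Fin N, (bt (run c x (g.val + 1) k) : R) * EE (e k) z =
      bt (run c x g.val k) * EE (e k) z +
        if k = g then EE (e g) z * bt (gate x (run c x g.val) (c g)) else 0 := by
    intro k
    by_cases hk : k = g
    · subst hk
      simp [run, run_ge c x k.val k le_rfl, bt]
    · simp [run, hk, Fin.val_inj]
  simp [WT, h, Finset.sum_add_distrib]

lemma WT_eval (e : Fin N → Fin t → Bool) (w : Fin N → Bool) (z : Fin t → R[X]) (s : R) :
    (WT e w z).eval s = WT e w fun b => (z b).eval s := by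
  simp [WT, EE, bt, eval_finsetSum, eval_prod, apply_ite (eval s)]

lemma WT_deg (e : Fin N → Fin t → Bool) (w : Fin N → Bool) (z : Fin t → R[X])
    (hz : ∀ b, (z b).natDegree ≤ 2) : (WT e w z).natDegree ≤ 2 * t := by
  refine natDegree_sum_le_of_forall_le _ _ fun g _ => natDegree_mul_le.trans ?_
  have h1 : (bt (w g) : R[X]).natDegree = 0 := by
    unfold bt
    split_ifs <;> simp
  rw [h1, zero_add]
  refine (natDegree_prod_le _ _).trans ?_
  refine (Finset.sum_le_card_nsmul _ _ 2 fun b _ => ?_).trans (by simp [mul_comm])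
  split_ifs
  · exact hz b
  · exact (natDegree_sub_le _ _).trans (max_le (by simp) (hz b))

lemma cv_deg (h z l r : R) : (cv (C h) X (C z) (C l) (C r)).natDegree ≤ 2 := by
  unfold cv
  compute_degree

end ring

variable {N t p : ℕ} [Fact p.Prime]

/-- columns: a normalising variable and the claims -/
abbrev Col (N t p : ℕ) : Type := Option (Fin (N + 1) × (Fin t → ZMod p) × ZMod p)

/-- rows: moves, terminal checks and the target -/
abbrev Row (N t p : ℕ) : Type :=
  (Fin N × (Fin t → ZMod p) × ZMod p × (Fin (2 * t + 1) → ZMod p)) ⊕ Option (Fin t → ZMod p)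

variable (e : Fin N → Fin t → Bool) (c : Circ N) (o : Fin N) (x : ℕ → Bool)

/-- the two gates read by a gate -/
def ch (g : Fin N) : Fin N × Fin N := (c g).elim (fun _ => (g, g)) id

/-- the curve attached to a claim -/
noncomputable def cur (g : Fin N) (z : Fin t → ZMod p) (b : Fin t) : (ZMod p)[X] :=
  cv (C 2⁻¹) X (C (z b)) (C (bt (e (ch c g).1 b))) (C (bt (e (ch c g).2 b)))

/-- the value of a gate read from a polynomial -/
noncomputable def vl (q : (ZMod p)[X]) : ℕ ⊕ Fin N × Fin N → ZMod p
  | .inl j => bt (x j)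
  | .inr _ => 1 - q.eval 1 * q.eval (-1)

/-- the honest polynomial -/
noncomputable def hp (g : Fin N) (z : Fin t → ZMod p) : (ZMod p)[X] :=
  WT e (run c x g.val) (cur e c g z)

lemma hp_deg (g : Fin N) (z : Fin t → ZMod p) : (hp e c x g z).natDegree ≤ 2 * t :=
  WT_deg _ _ _ fun _ => cv_deg ..

lemma hp_chk (he : Function.Injective e) (h2 : (2 : ZMod p) ≠ 0) (g : Fin N)
    (z : Fin t → ZMod p) : (hp e c x g z).eval 0 + EE (e g) z * vl x (hp e c x g z) (c g) =
      WT e (run c x (g.val + 1)) z := by
  have e0 : (fun b => (cur e c g z b).eval 0) = z := by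
    ext b
    simp [cur, cv]
  have e1 : (fun b => (cur e c g z b).eval 1) = fun b => bt (e (ch c g).1 b) := by
    ext b
    simp [cur, cv]
    field_simp
    ring
  have e2 : (fun b => (cur e c g z b).eval (-1)) = fun b => bt (e (ch c g).2 b) := by
    ext b
    simp [cur, cv]
    field_simp
    ring
  rw [WT_step, hp, WT_eval, e0]
  congr 2
  unfold ch at e1 e2
  rcases hc : c g with j | q
  · rfl
  · rw [hc] at e1 e2
    simp only [vl, WT_eval, e1, e2, WT_e he, gate, Sum.elim_inr, id]
    cases run c x g.val q.1 <;> cases run c x g.val q.2 <;> simp [bt]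

/-- a unit vector -/
def dl (a j : Col N t p) : ℝ := if j = a then 1 else 0

lemma dl_dot (a : Col N t p) (y : Col N t p → ℝ) : dl a ⬝ᵥ y = y a := by
  simp [dl, dotProduct]

omit [Fact p.Prime] in
lemma dl_mem (a j : Col N t p) : 0 ≤ dl a j ∧ dl a j ≤ 1 := by
  unfold dl
  split_ifs <;> simp

/-- the matrix of the system -/
noncomputable def MM : Row N t p → Col N t p → ℝ
  | .inl (g, z, γ, a) =>
    if (ofFn _ a).eval 0 + EE (e g) z * vl x (ofFn _ a) (c g) = γ then
      (p : ℝ)⁻¹ • ∑ s, dl (some (g.castSucc, fun b => (cur e c g z b).eval s, (ofFn _ a).eval s)) -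
        dl (some (g.succ, z, γ))
    else -dl none
  | .inr (some z) => dl none - dl (some (0, z, 0))
  | .inr none => dl (some (Fin.last N, fun b => bt (e o b), 0)) - (2 : ℝ)⁻¹ • dl none

lemma MM_proj (r : Row N t p) :
    ∃ j, ∀ x x' : ℕ → Bool, x j = x' j → MM e c o x r = MM e c o x' r := by
  rcases r with ⟨g, z, γ, a⟩ | _ | z
  · rcases hc : c g with j | q
    · exact ⟨j, fun x x' h => by simp only [MM, hc, vl, h]⟩
    · exact ⟨0, fun x x' _ => by simp only [MM, hc, vl]⟩
  · exact ⟨0, fun _ _ _ => rfl⟩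
  · exact ⟨0, fun _ _ _ => rfl⟩

lemma MM_abs (r : Row N t p) (j : Col N t p) : |MM e c o x r j| ≤ 1 := by
  have hp0 : (0 : ℝ) < p := by exact_mod_cast (Fact.out : p.Prime).pos
  have h0 := dl_mem none j
  rw [abs_le]
  rcases r with ⟨g, z, γ, a⟩ | _ | z
  · simp only [MM]
    split_ifs
    · have h1 := dl_mem (some (g.succ, z, γ)) j
      simp only [Pi.sub_apply, Pi.smul_apply, Finset.sum_apply, smul_eq_mul]
      generalize hf : (fun s : ZMod p => dl (some (g.castSucc, fun b => (cur e c g z b).eval s,
        (ofFn _ a).eval s)) j) = f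
      have hf1 : ∀ s, 0 ≤ f s ∧ f s ≤ 1 := fun s => by rw [← hf]; exact dl_mem _ _
      have h2 : 0 ≤ (p : ℝ)⁻¹ * ∑ s, f s :=
        mul_nonneg (by positivity) (Finset.sum_nonneg fun s _ => (hf1 s).1)
      have h3 : (p : ℝ)⁻¹ * ∑ s, f s ≤ 1 := by
        rw [inv_mul_le_iff₀ hp0]
        simpa using Finset.sum_le_card_nsmul Finset.univ f 1 fun s _ => (hf1 s).2
      constructor <;> linarith
    · simp only [Pi.neg_apply]
      constructor <;> linarith
  · have h1 := dl_mem (some (Fin.last N, fun b => bt (e o b), 0)) j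
    simp only [MM, Pi.sub_apply, Pi.smul_apply, smul_eq_mul]
    constructor <;> linarith
  · have h1 := dl_mem (some (0, z, 0)) j
    simp only [MM, Pi.sub_apply]
    constructor <;> linarith

lemma MM_no (he : Function.Injective e) (h2 : (2 : ZMod p) ≠ 0) (ho : run c x N o = false) :
    No (MM (p := p) e c o x) (dl none) (16 * (N + 1)) := by
  intro y ε hε h
  have hp0 : (0 : ℝ) < p := by exact_mod_cast (Fact.out : p.Prime).pos
  have key : ∀ (i : ℕ) (hi : i < N + 1) (z : Fin t → ZMod p),
      y none - (i + 1) * ε ≤ y (some (⟨i, hi⟩, z, WT e (run c x i) z)) := by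
    intro i
    induction i with
    | zero =>
      intro hi z
      have h1 := h (.inr (some z))
      have e0 : WT e (run c x 0) z = 0 := by simp [WT, run, bt]
      simp only [MM, sub_dotProduct, dl_dot] at h1
      rw [e0]
      simp only [Nat.cast_zero, zero_add, one_mul, Fin.zero_eta]
      linarith
    | succ i ih =>
      intro hi z
      let g : Fin N := ⟨i, by omega⟩
      have h1 := h (.inl (g, z, WT e (run c x (i + 1)) z, toFn _ (hp e c x g z)))
      have e1 : ofFn _ (toFn (2 * t + 1) (hp e c x g z)) = hp e c x g z :=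
        ofFn_comp_toFn_eq_id_of_natDegree_lt (Nat.lt_succ_of_le (hp_deg e c x g z))
      simp only [MM, e1] at h1
      rw [if_pos (hp_chk e c x he h2 g z)] at h1
      simp only [sub_dotProduct, smul_dotProduct, sum_dotProduct, dl_dot, smul_eq_mul] at h1
      have h3 : y none - (i + 1) * ε ≤ (p : ℝ)⁻¹ * ∑ s, y (some (g.castSucc,
          fun b => (cur e c g z b).eval s, (hp e c x g z).eval s)) := by
        rw [le_inv_mul_iff₀ hp0]
        have := Finset.card_nsmul_le_sum Finset.univ (fun s : ZMod p => y (some (g.castSucc,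
          fun b => (cur e c g z b).eval s, (hp e c x g z).eval s))) (y none - (i + 1) * ε)
          fun s _ => by rw [hp, WT_eval]; exact ih (by omega) _
        simpa using this
      have e3 : (⟨i + 1, hi⟩ : Fin (N + 1)) = g.succ := rfl
      rw [e3]
      push_cast
      linarith
  have h1 := h (.inr none)
  have h3 := key N (by omega) fun b => bt (e o b)
  rw [WT_e he, ho] at h3
  simp only [MM, sub_dotProduct, smul_dotProduct, dl_dot, smul_eq_mul] at h1
  rw [dl_dot]
  have e3 : (⟨N, by omega⟩ : Fin (N + 1)) = Fin.last N := rfl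
  have e4 : (bt false : ZMod p) = 0 := rfl
  rw [e3, e4] at h3
  have hN : (0 : ℝ) ≤ N * ε := by positivity
  nlinarith

lemma agree_le {q q' : (ZMod p)[X]} (h : q ≠ q') (hq : q.natDegree ≤ 2 * t)
    (hq' : q'.natDegree ≤ 2 * t) :
    ∑ s : ZMod p, (if q.eval s = q'.eval s then (1 : ℝ) else 0) ≤ 2 * t := by
  rw [Finset.sum_boole]
  have h1 : (Finset.univ.filter fun s : ZMod p => q.eval s = q'.eval s) ⊆
      (q - q').roots.toFinset := by
    intro s hs
    simp only [Finset.mem_filter] at hs
    simp [sub_ne_zero.2 h, hs.2]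
  have h2 := (Finset.card_le_card h1).trans ((Multiset.toFinset_card_le _).trans
    ((card_roots' _).trans ((natDegree_sub_le _ _).trans (max_le hq hq'))))
  exact_mod_cast h2

lemma MM_yes (he : Function.Injective e) (h2 : (2 : ZMod p) ≠ 0) (hp16 : 16 * t * (N + 1) ≤ p)
    (ho : run c x N o = true) : Yes (MM (p := p) e c o x) (dl none) (16 * (N + 1)) := by
  have hp0 : (0 : ℝ) < p := by exact_mod_cast (Fact.out : p.Prime).pos
  have hp1 : (16 * t * (N + 1) : ℝ) ≤ p := by exact_mod_cast hp16
  have hN : (0 : ℝ) < N + 1 := by positivity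
  obtain ⟨β, hβ0, hβ⟩ : ∃ β : ℝ, 0 < β ∧ (N + 1) * β = 1 / 8 :=
    ⟨1 / 8 / (N + 1), by positivity, by field_simp⟩
  let y : Col N t p → ℝ := fun j => j.elim (1 / 2) fun s =>
    (if WT e (run c x s.1.val) s.2.1 = s.2.2 then 1 else 0) / 2 + (s.1.val + 1) * β
  have hy0 : y none = 1 / 2 := rfl
  refine ⟨y, fun j => ?_, fun r => ?_, ?_⟩
  · rcases j with _ | ⟨i, z, γ⟩
    · rw [hy0, abs_le]
      norm_num
    · have hi : (i.val : ℝ) ≤ N := by exact_mod_cast Nat.lt_succ_iff.1 i.2
      have h1 : 0 ≤ (i.val + 1 : ℝ) * β := by positivity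
      have h3 : (i.val + 1 : ℝ) * β ≤ 1 / 8 := by nlinarith
      simp only [y, Option.elim_some]
      rw [abs_le]
      split_ifs <;> constructor <;> linarith
  · rcases r with ⟨g, z, γ, a⟩ | _ | z
    · simp only [MM]
      split_ifs with hc
      · simp only [sub_dotProduct, smul_dotProduct, sum_dotProduct, dl_dot, smul_eq_mul, y,
          Option.elim_some, Fin.val_castSucc, Fin.val_succ, ← WT_eval]
        rw [Finset.sum_add_distrib, ← Finset.sum_div]
        simp only [Finset.sum_const, Finset.card_univ, ZMod.card, nsmul_eq_mul]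
        have h3 : (p : ℝ)⁻¹ * ∑ s : ZMod p, (if (hp e c x g z).eval s = (ofFn _ a).eval s
            then (1 : ℝ) else 0) ≤ (if WT e (run c x (g.val + 1)) z = γ then 1 else 0) + β := by
          rw [inv_mul_le_iff₀ hp0]
          split_ifs with ht
          · have := Finset.sum_le_card_nsmul Finset.univ (fun s : ZMod p =>
              if (hp e c x g z).eval s = (ofFn _ a).eval s then (1 : ℝ) else 0) 1
              fun s _ => by split_ifs <;> simp
            simp only [Finset.card_univ, ZMod.card, nsmul_eq_mul] at this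
            nlinarith
          · have hne : hp e c x g z ≠ ofFn _ a := fun h =>
              ht (by rw [← hp_chk e c x he h2, h, hc])
            refine (agree_le hne (hp_deg ..)
              (Nat.lt_succ_iff.1 (ofFn_natDegree_lt (by omega) a))).trans ?_
            have : (16 * t * (N + 1) : ℝ) * β ≤ p * β := by gcongr
            nlinarith
        unfold hp at h3
        have e1 : (p : ℝ)⁻¹ * (p * ((g.val + 1) * β)) = (g.val + 1) * β := by field_simp
        rw [mul_add (p : ℝ)⁻¹, e1, ← mul_div_assoc]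
        push_cast
        nlinarith
      · rw [neg_dotProduct, dl_dot, hy0]
        nlinarith
    · simp only [MM, sub_dotProduct, smul_dotProduct, dl_dot, smul_eq_mul, y, Option.elim_some,
        Option.elim_none, Fin.val_last, WT_e he, ho]
      rw [if_neg (by simp [bt])]
      nlinarith
    · have e0 : WT e (run c x 0) z = 0 := by simp [WT, run, bt]
      simp only [MM, sub_dotProduct, dl_dot, y, Option.elim_some, Option.elim_none, Fin.val_zero,
        e0, if_true]
      push_cast
      nlinarith
  · rw [dl_dot, hy0]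
    nlinarith

end Pool.Agent.P.MP_ef347d_lc.H
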