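import Pool.Agent.P.MP_ef347d_lc.H.Emb

/-! Choice of the parameters. -/

namespace Pool.Agent.P.MP_ef347d_lc.H

open Matrix MeasureTheory ProbabilityTheory Filter

lemma exists_l0 (d : ℕ) : ∃ l0 : ℕ, ∀ l : ℕ, l0 ≤ l → 5 ≤ l ∧
    ∀ a : ℕ, a ≤ l ^ d → a * Real.exp (-(l : ℝ) ^ 2 / 2) ≤ 1 / 10 := by
  have h := ((Real.tendsto_pow_mul_exp_neg_atTop_nhds_zero d).comp
    tendsto_natCast_atTop_atTop).eventually (eventually_le_nhds (show (0 : ℝ) < 1 / 10 by norm_num))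
  obtain ⟨l0, h0⟩ := eventually_atTop.1 (h.and (eventually_ge_atTop 5))
  refine ⟨l0, fun l hl => ⟨(h0 l hl).2, fun a ha => le_trans ?_ (h0 l hl).1⟩⟩
  have h5 : (5 : ℝ) ≤ l := by exact_mod_cast (h0 l hl).2
  have ha' : (a : ℝ) ≤ (l : ℝ) ^ d := by exact_mod_cast ha
  refine mul_le_mul ha' (Real.exp_le_exp.2 ?_) (Real.exp_pos _).le (by positivity)
  nlinarith

lemma yes_cond {k l G n0 : ℕ} {s : ℝ} (h5 : 5 ≤ l) (hG : G ≤ l) (hn : n0 ≤ l)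
    (h : s ^ (2 * k + 2) ≤ ((n0 * l ^ (8 * k + 8) : ℕ) : ℝ) ^ k) :
    4 * G * (s * (l * √((n0 * l ^ (8 * k + 8) : ℕ) : ℝ))) < (l ^ (8 * k + 8) : ℕ) := by
  refine lt_of_pow_lt_pow_left₀ (2 * k + 2) (by positivity) ?_
  have hN : (4 * G * l) ^ (2 * k + 2) * (n0 * l ^ (8 * k + 8)) ^ (2 * k + 1) <
      (l ^ (8 * k + 8)) ^ (2 * k + 2) := by
    calc _ ≤ (l ^ 3) ^ (2 * k + 2) * (l * l ^ (8 * k + 8)) ^ (2 * k + 1) := by
          gcongr
          calc 4 * G * l ≤ l * l * l := by gcongr; omega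
            _ = l ^ 3 := by ring
      _ = l ^ (8 * k + 7) * (l ^ (8 * k + 8)) ^ (2 * k + 1) := by ring
      _ < l ^ (8 * k + 8) * (l ^ (8 * k + 8)) ^ (2 * k + 1) := by
          gcongr <;> omega
      _ = _ := by ring
  generalize n0 * l ^ (8 * k + 8) = n at h hN
  generalize l ^ (8 * k + 8) = B at hN
  have hR : (4 * G * l : ℝ) ^ (2 * k + 2) * (n : ℝ) ^ (2 * k + 1) < (B : ℝ) ^ (2 * k + 2) := by
    exact_mod_cast hN
  have e : √(n : ℝ) ^ (2 * k + 2) = (n : ℝ) ^ (k + 1) := by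
    rw [show 2 * k + 2 = 2 * (k + 1) by ring, pow_mul, Real.sq_sqrt (by positivity)]
  calc _ = (4 * G * l : ℝ) ^ (2 * k + 2) * (s ^ (2 * k + 2) * √(n : ℝ) ^ (2 * k + 2)) := by ring
    _ ≤ (4 * G * l : ℝ) ^ (2 * k + 2) * ((n : ℝ) ^ k * (n : ℝ) ^ (k + 1)) := by
        rw [e]; gcongr
    _ = (4 * G * l : ℝ) ^ (2 * k + 2) * (n : ℝ) ^ (2 * k + 1) := by ring
    _ < _ := hR

lemma sizes {l n i P : ℕ} (h5 : 5 ≤ l) (hP : l ≤ P) (hn : n ≤ P) (h1 : 1 ≤ n) (hi : i ≤ l) :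
    (i + 2 * n) * (l ^ 3 * n ^ 2) ^ 2 + n ≤ P ^ 13 ∧ (i + 2 * n) * (l ^ 3 * n ^ 2) ^ 2 + 1 ≤ P ^ 13 ∧
      2 * ((i + 2 * n) * n) ≤ P ^ 13 := by
  have a1 : i + 2 * n ≤ P ^ 2 := by nlinarith
  have a2 : (i + 2 * n) * (l ^ 3 * n ^ 2) ^ 2 ≤ P ^ 12 := by
    calc _ ≤ P ^ 2 * (P ^ 3 * P ^ 2) ^ 2 := by gcongr
      _ = _ := by ring
  have a3 : (i + 2 * n) * n ≤ P ^ 12 := by
    calc _ ≤ P ^ 2 * P := by gcongr
      _ = P ^ 3 := by ring
      _ ≤ _ := Nat.pow_le_pow_right (by omega) (by norm_num)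
  have a4 : P ≤ P ^ 12 := Nat.le_self_pow (by norm_num) P
  have a5 : 2 * P ^ 12 ≤ P ^ 13 := by
    rw [pow_succ' P 12]
    gcongr
    omega
  omega

theorem emb (k : ℕ) : ∃ l0 d : ℕ, ∀ (ι κ : Type) [Fintype ι] [Fintype κ] [Nonempty κ] (l G : ℕ),
    l0 ≤ l → Fintype.card ι ≤ l → Fintype.card κ ≤ l → 0 < G → G ≤ l →
    ∃ (m n B R : ℕ) (τ : Fin n ≃ κ × Fin B) (ρ : Fin m ≃ (ι ⊕ Bool × Fin n) × Fin R),
      1 ≤ m ∧ 1 ≤ n ∧ m + n ≤ l ^ d ∧ ∀ (M : ι → κ → ℝ) (c : κ → ℝ) (σ : Idx m n → ℝ),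
        (∀ a, σ a ^ (2 * k + 2) ≤ (n : ℝ) ^ k) → ∀ b : Bool, (b = true → Yes M c G) → (b = false → No M c G) →
          ∃ E : Set (Idx m n → ℝ), MeasurableSet E ∧ 9 / 10 ≤ (gam (Idx m n)).real E ∧
            ∀ Z ∈ E, Unb (ctr (A0 M c τ) (fun a => c (τ a).1) ρ + σ * Z) ↔ b = true := by
  obtain ⟨l0, h0⟩ := exists_l0 ((8 * k + 9) * 13)
  refine ⟨l0, (8 * k + 9) * 13, fun ι κ _ _ _ l G hl hι hκ hG hG' => ?_⟩
  obtain ⟨h5, h0⟩ := h0 l hl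
  obtain ⟨n, hn⟩ : ∃ n, n = Fintype.card κ * l ^ (8 * k + 8) := ⟨_, rfl⟩
  have n1 : 1 ≤ n := by
    rw [hn]
    exact Nat.mul_pos Fintype.card_pos (by positivity)
  obtain ⟨z1, z2, z3⟩ := sizes (n := n) (P := l ^ (8 * k + 9)) h5 (Nat.le_self_pow (by omega) l)
    (by rw [hn, pow_succ' l (8 * k + 8)]; gcongr) n1 hι
  rw [← pow_mul] at z1 z2 z3
  have l5 : (5 : ℝ) ≤ l := by exact_mod_cast h5
  have g0 : (0 : ℝ) < G := by exact_mod_cast hG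
  have g1 : (G : ℝ) ≤ l := by exact_mod_cast hG'
  have n2 : (1 : ℝ) ≤ n := by exact_mod_cast n1
  refine ⟨(Fintype.card ι + 2 * n) * (l ^ 3 * n ^ 2) ^ 2, n, l ^ (8 * k + 8), (l ^ 3 * n ^ 2) ^ 2,
    Fintype.equivOfCardEq (by simp [hn]), Fintype.equivOfCardEq (by simp),
    Nat.mul_pos (by omega) (by positivity), n1, z1, fun M c σ hσ b hy hno => ?_⟩
  obtain ⟨s, hs, h1⟩ : ∃ s : ℝ, 0 < s ∧ s ^ (2 * k + 2) = (n : ℝ) ^ k :=
    ⟨_, by positivity, Real.rpow_inv_natCast_pow (by positivity) (by omega)⟩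
  replace hσ : ∀ a, |σ a| ≤ s := fun a => le_of_pow_le_pow_left₀ (n := 2 * k + 2) (by omega) hs.le
    (by rw [Even.pow_abs ⟨k + 1, by ring⟩, h1]; exact hσ a)
  replace h1 := h1.le
  cases b
  · simp only [Bool.false_eq_true, iff_false]
    refine emb_no _ _ _ (blk_no M c _ (hno rfl) g0.le) hs (l := l) (by positivity)
      (r := l ^ 3 * n ^ 2) (by positivity) (by push_cast; rfl) ?_ (h0 _ (by simpa using z3)) hσ
    have h2 : s ≤ n := le_of_pow_le_pow_left₀ (n := 2 * k + 2) (by omega) (by positivity)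
      (h1.trans (pow_le_pow_right₀ n2 (by omega)))
    calc _ = 2 * (G + 2) * (s * (n * l)) := by ring
      _ ≤ (l : ℝ) ^ 2 * (n * (n * l)) := by
          gcongr
          nlinarith
      _ = _ := by ring
  · simp only [iff_true]
    obtain ⟨x, x1, x2, x3⟩ := blk_yes M c _ (hy rfl) g0.le (B := l ^ (8 * k + 8)) (n := n) (by
      have : l ^ 2 ≤ l ^ (8 * k + 8) := Nat.pow_le_pow_right (by omega) (by omega)
      have h3 : 2 * G ≤ l ^ (8 * k + 8) := by nlinarith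
      exact_mod_cast h3)
    refine emb_yes _ _ _ n1 x x1 x2 x3 (by positivity) hs (l := l) (by positivity) ?_ (h0 _ z2) hσ
    rw [hn] at h1 ⊢
    exact yes_cond h5 hG' hκ h1

lemma cards {N t p U : ℕ} (hp : p ≤ U) (hN : N + 1 ≤ U) (h2 : 3 ≤ U) :
    N * (p ^ t * (p * p ^ (2 * t + 1))) + (p ^ t + 1) ≤ U ^ (3 * t + 4) ∧
      (N + 1) * (p ^ t * p) + 1 ≤ U ^ (3 * t + 4) := by
  have a1 : N * (p ^ t * (p * p ^ (2 * t + 1))) ≤ U ^ (3 * t + 3) := by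
    calc _ ≤ U * (U ^ t * (U * U ^ (2 * t + 1))) := by gcongr; omega
      _ = _ := by ring
  have a2 : p ^ t ≤ U ^ (3 * t + 3) :=
    (Nat.pow_le_pow_left hp t).trans (Nat.pow_le_pow_right (by omega) (by omega))
  have a3 : 1 ≤ U ^ (3 * t + 3) := Nat.one_le_pow _ _ (by omega)
  have a4 : (N + 1) * (p ^ t * p) ≤ U ^ (3 * t + 3) := by
    calc _ ≤ U * (U ^ t * U) := by gcongr
      _ = U ^ (t + 2) := by ring
      _ ≤ _ := Nat.pow_le_pow_right (by omega) (by omega)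
  have a5 : 3 * U ^ (3 * t + 3) ≤ U ^ (3 * t + 4) := by
    rw [pow_succ' U (3 * t + 3)]
    gcongr
  omega

theorem main (k : ℕ) : ∃ C : ℕ, ∀ (N : ℕ) (c : Circ N) (o : Fin N), ∃ m n : ℕ,
    1 ≤ m ∧ 1 ≤ n ∧ m + n ≤ (N + 2) ^ (C * (Nat.log 2 N + 1)) ∧
    ∃ D : (ℕ → Bool) → Idx m n → ℝ, (∀ x a, |D x a| ≤ 1) ∧
      (∀ a, ∃ j, ∀ x x', x j = x' j → D x a = D x' a) ∧
      ∀ (x : ℕ → Bool) (σ : Idx m n → ℝ), (∀ a, σ a ^ (2 * k + 2) ≤ (n : ℝ) ^ k) →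
        ∃ E : Set (Idx m n → ℝ), MeasurableSet E ∧ 9 / 10 ≤ (gam (Idx m n)).real E ∧
          ∀ Z ∈ E, Unb (D x + σ * Z) ↔ run c x N o = true := by
  obtain ⟨l0, d, h⟩ := emb k
  refine ⟨7 * (7 + l0) * d, fun N c o => ?_⟩
  obtain ⟨t, ht⟩ : ∃ t, t = Nat.log 2 N + 1 := ⟨_, rfl⟩
  have t1 : t ≤ N + 1 := by have := Nat.log_le_self 2 N; omega
  have t0 : 1 ≤ t := by omega
  obtain ⟨p, pp, p1, p2⟩ := Nat.exists_prime_lt_and_le_two_mul (16 * t * (N + 1)) (by positivity)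
  have : Fact p.Prime := ⟨pp⟩
  obtain ⟨e⟩ : Nonempty (Fin N ↪ (Fin t → Bool)) := Function.Embedding.nonempty_of_card_le (by
    simpa [ht] using (Nat.lt_pow_succ_log_self one_lt_two N).le)
  have h2 : (2 : ZMod p) ≠ 0 := fun h2 => by
    have := Nat.le_of_dvd two_pos ((ZMod.natCast_eq_zero_iff 2 p).1 h2)
    nlinarith
  obtain ⟨U, hU⟩ : ∃ U, U = (N + 2) ^ 7 := ⟨_, rfl⟩
  have u1 : 32 * ((N + 1) * (N + 1)) ≤ U := by
    calc _ ≤ (N + 2) ^ 5 * ((N + 2) * (N + 2)) := by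
          gcongr
          · exact (Nat.pow_le_pow_left (show 2 ≤ N + 2 by omega) 5 :)
          · omega
          · omega
      _ = _ := by rw [hU]; ring
  have u2 : 16 * (N + 1) ≤ U := by nlinarith
  obtain ⟨c1, c2⟩ := cards (N := N) (t := t) (p := p) (U := U) (by nlinarith) (by omega) (by omega)
  have c3 : U ^ (3 * t + 4) ≤ U ^ (3 * t + 4 + l0) := Nat.pow_le_pow_right (by omega) (by omega)
  obtain ⟨m, n, B, R, τ, ρ, m1, n1, hs, h⟩ := h (Row N t p) (Col N t p) (U ^ (3 * t + 4 + l0))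
    (16 * (N + 1)) ((Nat.lt_pow_self (by omega)).le.trans
      (Nat.pow_le_pow_right (by omega) (by omega : l0 ≤ _)))
    (by simpa using c1.trans c3) (by simpa using c2.trans c3) (by omega)
    (u2.trans (Nat.le_self_pow (by omega) U))
  refine ⟨m, n, m1, n1, hs.trans ?_,
    fun x => ctr (A0 (MM e c o x) (dl none) τ) (fun a => dl none (τ a).1) ρ, ?_, ?_,
    fun x s s1 => h _ _ s s1 _ (fun ho => ?_) fun ho => ?_⟩
  · rw [hU, ← pow_mul, ← pow_mul, ← ht]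
    refine Nat.pow_le_pow_right (by omega) ?_
    calc _ ≤ 7 * (((7 + l0) * t) * d) := by
          gcongr
          nlinarith
      _ = _ := by ring
  · rintro x (⟨i, a⟩ | i | a)
    · simp only [ctr, Sum.elim_inl]
      rcases (ρ i).1 with r | q
      · exact MM_abs ..
      · have := dl_mem none (τ a).1
        simp only [A0, Pi.smul_apply, Pi.sub_apply, Pi.single_apply, smul_eq_mul, abs_le]
        split_ifs <;> constructor <;> linarith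
    · simp [ctr]
    · have := dl_mem none (τ a).1
      simp only [ctr, Sum.elim_inr, abs_le]
      constructor <;> linarith
  · rintro (⟨i, a⟩ | i)
    · simp only [ctr, Sum.elim_inl]
      rcases (ρ i).1 with r | q
      · obtain ⟨j, hj⟩ := MM_proj e c o r
        exact ⟨j, fun x x' hx => by simp only [A0, hj x x' hx]⟩
      · exact ⟨0, fun _ _ _ => rfl⟩
    · exact ⟨0, fun _ _ _ => rfl⟩
  · simpa using MM_yes e c o x e.injective h2 p1.le ho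
  · simpa using MM_no e c o x e.injective h2 ho

end Pool.Agent.P.MP_ef347d_lc.H
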